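import Pool.Agent.helper90.FL.Spec

set_option autoImplicit false

namespace Pool.Agent.helper90.FL

open Finset Polynomial
open scoped Classical

theorem CN1_split {E : Type} {q : ℕ} (A : Finset E) (e : E) (heA : e ∈ A) (p : E → Prop) (f g : E → ZMod q)
    (hfg : ∀ a, a ≠ e → f a = g a) :
    ∑ a ∈ A.filter p, f a = (if p e then f e else 0) + ∑ a ∈ (A.erase e).filter p, g a := by
  rw [sum_filter, sum_filter, ← add_sum_erase A (fun a => if p a then f a else 0) heA]
  refine congrArg _ (sum_congr rfl fun a ha => ?_)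
  rw [hfg a (mem_erase.1 ha).1]

theorem CN1_key {V E : Type} {s t : E → V} {q : ℕ} (A B : Finset E) (e : E) (heA : e ∈ A)
    (hl : Lp s t B e) (f g : E → ZMod q) (hfg : ∀ a, a ≠ e → f a = g a) (S : Set V) (hS : Cl s t B S) :
    (∑ a ∈ A.filter (fun a => s a ∈ S), f a = ∑ a ∈ A.filter (fun a => t a ∈ S), f a) ↔
      (∑ a ∈ (A.erase e).filter (fun a => s a ∈ S), g a =
        ∑ a ∈ (A.erase e).filter (fun a => t a ∈ S), g a) := by
  rw [CN1_split A e heA (fun a => s a ∈ S) f g hfg, CN1_split A e heA (fun a => t a ∈ S) f g hfg]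
  have h := hl S hS
  by_cases hs : s e ∈ S
  · have ht := h.1 hs
    simp only [hs, ht, if_true, add_right_inj]
  · have ht : t e ∉ S := fun h' => hs (h.2 h')
    simp only [hs, ht, if_false, add_right_inj]

theorem CN1_card (q : ℕ) (hq : 1 ≤ q) : Nat.card {c : ZMod q // c ≠ 0} = q - 1 := by
  haveI : NeZero q := ⟨by omega⟩
  rw [Nat.card_eq_fintype_card, Fintype.card_subtype_compl, ZMod.card, Fintype.card_subtype_eq]

theorem CN1 : CN1_stmt := by
  intro V E _ _ s t q A B e hq heA hl
  have d1 : ∀ f : E → ZMod q, IsF s t q A B f → IsF s t q (A.erase e) B (Function.update f e 0) := by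
    intro f hf
    refine ⟨fun a => ?_, fun S hS => ?_⟩
    · by_cases ha : a = e
      · subst ha
        simp
      · rw [Function.update_of_ne ha, mem_erase]
        exact ⟨fun h => ⟨ha, (hf.1 a).1 h⟩, fun h => (hf.1 a).2 h.2⟩
    · exact (CN1_key A B e heA hl f (Function.update f e 0)
        (fun a ha => (Function.update_of_ne ha 0 f).symm) S hS).1 (hf.2 S hS)
  have d2 : ∀ (c : ZMod q) (g : E → ZMod q), c ≠ 0 → IsF s t q (A.erase e) B g →
      IsF s t q A B (Function.update g e c) := by
    intro c g hc hg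
    refine ⟨fun a => ?_, fun S hS => ?_⟩
    · by_cases ha : a = e
      · subst ha
        rw [Function.update_self]
        exact ⟨fun _ => heA, fun _ => hc⟩
      · rw [Function.update_of_ne ha, hg.1 a, mem_erase]
        exact ⟨fun h => h.2, fun h => ⟨ha, h⟩⟩
    · exact (CN1_key A B e heA hl (Function.update g e c) g
        (fun a ha => Function.update_of_ne ha c g) S hS).2 (hg.2 S hS)
  have d3 : ∀ g : E → ZMod q, IsF s t q (A.erase e) B g → g e = 0 := by
    intro g hg
    by_contra h
    exact (mem_erase.1 ((hg.1 e).1 h)).1 rfl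
  let φ : {f : E → ZMod q // IsF s t q A B f} ≃
      {c : ZMod q // c ≠ 0} × {g : E → ZMod q // IsF s t q (A.erase e) B g} :=
    { toFun := fun f => (⟨f.1 e, (f.2.1 e).2 heA⟩, ⟨Function.update f.1 e 0, d1 f.1 f.2⟩)
      invFun := fun p => ⟨Function.update p.2.1 e p.1.1, d2 p.1.1 p.2.1 p.1.2 p.2.2⟩
      left_inv := by
        intro f
        apply Subtype.ext
        simp only [Function.update_idem, Function.update_eq_self]
      right_inv := by
        rintro ⟨⟨c, hc⟩, ⟨g, hg⟩⟩
        refine Prod.ext (Subtype.ext ?_) (Subtype.ext ?_)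
        · simp only [Function.update_self]
        · simp only [Function.update_idem]
          have h := d3 g hg
          rw [← h, Function.update_eq_self] }
  show Nat.card {f : E → ZMod q // IsF s t q A B f} =
    (q - 1) * Nat.card {f : E → ZMod q // IsF s t q (A.erase e) B f}
  rw [Nat.card_congr φ, Nat.card_prod, CN1_card q hq]

end Pool.Agent.helper90.FL
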